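import Mathlib
import Pool.Agent.H718R2.G0

/-!
# Products over an invariant set
-/

set_option autoImplicit false

open scoped Manifold ContDiff Topology

namespace Pool.Agent.Y271.CP

open Pool.Agent.H718R2.G

section

variable (m k n : ℕ) (M : Type*) [TopologicalSpace M] [ChartedSpace (V m) M]
  (Y : Type*) [TopologicalSpace Y] [ChartedSpace (V k) Y]
  (N : Type*) [TopologicalSpace N] [ChartedSpace (V n) N]

/-- smooth diffeomorphisms `M × Y → N` -/
abbrev ProdDiffeo := Diffeomorph ((𝓡 m).prod (𝓡 k)) (𝓡 n) (M × Y) N ∞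

variable {m k n M Y N}

/-- the point `Θ (x, y)` -/
noncomputable def atP (Θ : ProdDiffeo m k n M Y N) (x : M) (y : Y) : N := Θ (x, y)

/-- In the coordinates given by `Θ : M × Y → N`, the map `F` is the product `f × h` on `L × Y`. -/
def IsProd (Θ : ProdDiffeo m k n M Y N) (F : N → N) (L : Set M) (f : L ≃ₜ L) (h : Y → Y) : Prop :=
  ∀ (l : L) (y : Y), F (atP Θ l y) = atP Θ (f l) (h y)

/-- For some set `L ⊆ M` which contains `x`, the map `F` is the product `f × h` on `L × Y` (in the
coordinates given by `Θ : M × Y → N`), where `f : L → L` is a homeomorphism for which `x` is recurrent,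
`h` is a smooth diffeomorphism of `Y`, and `y` is in the closure of the interior of the set of the
periodic points of `h`. -/
def ProdPer (Θ : ProdDiffeo m k n M Y N) (F : N → N) (x : M) (y : Y) : Prop :=
  ∃ (L : Set M) (f : L ≃ₜ L) (h : Diffeomorph (𝓡 k) (𝓡 k) Y Y ∞) (hx : x ∈ L),
    IsRec f ⟨x, hx⟩ ∧ y ∈ closure (interior (Function.periodicPts h)) ∧ IsProd Θ F L f h

end

end Pool.Agent.Y271.CP
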