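import Pool.Agent.Y271.CP.Loc

/-!
# The flow commuting with `h`
-/

set_option autoImplicit false
set_option linter.unusedSectionVars false

open scoped Manifold ContDiff Topology
open Filter Set Metric

universe u

namespace Pool.Agent.Y271.CP

open Pool.Agent.H718R2.G Pool.Agent.TH290.CL Pool.Agent.W564.SC

section comb

variable {Y : Type u} (h : Y ≃ Y) (L : ℝ → Y → Y) (β : Y → ℂ)

/-- the translate of `L` by `h^j` -/
def tf (j : ℕ) (t : ℝ) (y : Y) : Y := h^[j] (L t (h.symm^[j] y))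

/-- the composition of the first `n` translates -/
def gf : ℕ → ℝ → Y → Y
  | 0, _, y => y
  | n + 1, t, y => tf h L n t (gf n t y)

/-- the sum of the translates of `β` -/
noncomputable def bf (q : ℕ) (y : Y) : ℂ := ∑ j ∈ Finset.range q, β (h.symm^[j] y)

variable {h L β}

theorem it_symm (j : ℕ) (y : Y) : h^[j] (h.symm^[j] y) = y := by
  have : Function.LeftInverse h h.symm := fun y => h.apply_symm_apply y
  exact (this.iterate j) y

theorem symm_it (j : ℕ) (y : Y) : h.symm^[j] (h^[j] y) = y := by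
  have : Function.LeftInverse h.symm h := fun y => h.symm_apply_apply y
  exact (this.iterate j) y

variable {B : Set Y} {q : ℕ} (hB1 : ∀ y ∈ B, h^[q] y = y)
  (hB2 : ∀ j, 0 < j → j < q → ∀ y ∈ B, h^[j] y ∉ B)
  (hL1 : ∀ t y, y ∉ B → L t y = y) (hL2 : ∀ t, ∀ y ∈ B, L t y ∈ B) (hL0 : ∀ y, L 0 y = y)
  (hLa : ∀ s t y, L (s + t) y = L s (L t y)) (hβ : ∀ y, y ∉ B → β y = 0) (hq : 1 ≤ q)

include hB2 in
theorem E_disj {j l : ℕ} (hjl : j < l) (hl : l < q) {y : Y} (h1 : h.symm^[j] y ∈ B) :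
    h.symm^[l] y ∉ B := by
  intro h2
  obtain ⟨d, rfl⟩ := Nat.exists_eq_add_of_lt hjl
  have e1 : h.symm^[j + d + 1] y = h.symm^[d + 1] (h.symm^[j] y) := by
    rw [← Function.iterate_add_apply]
    congr 1
    omega
  have e2 : h^[d + 1] (h.symm^[j + d + 1] y) = h.symm^[j] y := by
    rw [e1, it_symm]
  apply hB2 (d + 1) (by omega) (by omega) _ h2
  rw [e2]
  exact h1

include hB2 in
theorem E_disj' {j l : ℕ} (hjl : j ≠ l) (hj : j < q) (hl : l < q) {y : Y}
    (h1 : h.symm^[j] y ∈ B) : h.symm^[l] y ∉ B := by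
  rcases lt_or_gt_of_ne hjl with h3 | h3
  · exact E_disj hB2 h3 hl h1
  · intro h2
    exact E_disj hB2 h3 hj h2 h1

include hL1 in
theorem tf_out {j : ℕ} {y : Y} (h1 : h.symm^[j] y ∉ B) (t : ℝ) : tf h L j t y = y := by
  unfold tf
  rw [hL1 t _ h1, it_symm]

include hL2 in
theorem tf_in {j : ℕ} {y : Y} (h1 : h.symm^[j] y ∈ B) (t : ℝ) :
    h.symm^[j] (tf h L j t y) ∈ B := by
  unfold tf
  rw [symm_it]
  exact hL2 t _ h1

include hL1 in
theorem gf_out (n : ℕ) {y : Y} (h1 : ∀ j < n, h.symm^[j] y ∉ B) (t : ℝ) : gf h L n t y = y := by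
  induction n with
  | zero => rfl
  | succ n ih =>
    show tf h L n t (gf h L n t y) = y
    rw [ih fun j hj => h1 j (by omega)]
    exact tf_out hL1 (h1 n (by omega)) t

include hB2 hL1 hL2 in
theorem gf_in (n : ℕ) (hn : n ≤ q) {j : ℕ} (hj : j < n) {y : Y} (h1 : h.symm^[j] y ∈ B) (t : ℝ) :
    gf h L n t y = tf h L j t y := by
  induction n with
  | zero => omega
  | succ n ih =>
    show tf h L n t (gf h L n t y) = tf h L j t y
    rcases Nat.lt_succ_iff_lt_or_eq.1 hj with h2 | h2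
    · rw [ih (by omega) h2]
      apply tf_out hL1
      exact E_disj hB2 h2 (by omega) (tf_in hL2 h1 t)
    · subst h2
      rw [gf_out hL1 j]
      intro l hl h3
      exact E_disj hB2 hl (by omega) h3 h1

include hB2 hL1 hL2 hL0 in
theorem gf_zero (y : Y) : gf h L q 0 y = y := by
  by_cases h1 : ∃ j, j < q ∧ h.symm^[j] y ∈ B
  · obtain ⟨j, hj, h2⟩ := h1
    rw [gf_in hB2 hL1 hL2 q le_rfl hj h2]
    unfold tf
    rw [hL0, it_symm]
  · push Not at h1
    exact gf_out hL1 q h1 0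

include hB2 hL1 hL2 hLa in
theorem gf_add (s t : ℝ) (y : Y) : gf h L q (s + t) y = gf h L q s (gf h L q t y) := by
  by_cases h1 : ∃ j, j < q ∧ h.symm^[j] y ∈ B
  · obtain ⟨j, hj, h2⟩ := h1
    rw [gf_in hB2 hL1 hL2 q le_rfl hj h2, gf_in hB2 hL1 hL2 q le_rfl hj h2,
      gf_in hB2 hL1 hL2 q le_rfl hj (tf_in hL2 h2 t)]
    unfold tf
    rw [hLa, symm_it]
  · push Not at h1
    rw [gf_out hL1 q h1, gf_out hL1 q h1, gf_out hL1 q h1]

include hB1 hB2 hL1 hL2 hq in
theorem gf_comm (t : ℝ) (y : Y) : h (gf h L q t y) = gf h L q t (h y) := by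
  obtain ⟨p, rfl⟩ : ∃ p, q = p + 1 := ⟨q - 1, by omega⟩
  have hsucc : ∀ j, h.symm^[j + 1] (h y) = h.symm^[j] y := by
    intro j
    rw [Function.iterate_succ_apply, h.symm_apply_apply]
  by_cases h1 : ∃ j, j < p + 1 ∧ h.symm^[j] y ∈ B
  · obtain ⟨j, hj, h2⟩ := h1
    rw [gf_in hB2 hL1 hL2 _ le_rfl hj h2]
    rcases Nat.lt_succ_iff_lt_or_eq.1 hj with h3 | h3
    · have h4 : h.symm^[j + 1] (h y) ∈ B := by rw [hsucc]; exact h2
      rw [gf_in hB2 hL1 hL2 _ le_rfl (by omega : j + 1 < p + 1) h4]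
      unfold tf
      rw [hsucc, Function.iterate_succ_apply']
    · subst h3
      have h5 : h y = h.symm^[j] y := by
        have h6 := hB1 _ h2
        rw [Function.iterate_succ_apply', it_symm] at h6
        exact h6
      have h4 : h.symm^[0] (h y) ∈ B := by
        show h y ∈ B
        rw [h5]
        exact h2
      rw [gf_in hB2 hL1 hL2 _ le_rfl (Nat.succ_pos _) h4]
      unfold tf
      show h (h^[j] (L t (h.symm^[j] y))) = L t (h y)
      rw [h5, ← Function.iterate_succ_apply' h]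
      exact hB1 _ (hL2 t _ h2)
  · push Not at h1
    rw [gf_out hL1 _ h1, gf_out hL1]
    intro j hj
    rcases Nat.eq_zero_or_pos j with h3 | h3
    · subst h3
      intro h4
      have h4' : h y ∈ B := h4
      apply h1 p (by omega)
      have h5 : h.symm^[p] y = h y := by
        have h6 := hB1 _ h4'
        have h7 : h.symm^[p + 1] (h y) = h y := by
          conv_lhs => rw [← h6]
          exact symm_it _ _
        rw [hsucc] at h7
        exact h7
      rw [h5]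
      exact h4'
    · obtain ⟨l, rfl⟩ : ∃ l, j = l + 1 := ⟨j - 1, by omega⟩
      rw [hsucc]
      exact h1 l (by omega)

include hB1 hβ hq in
theorem bf_comm (y : Y) : bf h β q (h y) = bf h β q y := by
  obtain ⟨p, rfl⟩ : ∃ p, q = p + 1 := ⟨q - 1, by omega⟩
  have hsucc : ∀ j, h.symm^[j + 1] (h y) = h.symm^[j] y := by
    intro j
    rw [Function.iterate_succ_apply, h.symm_apply_apply]
  unfold bf
  rw [Finset.sum_range_succ', Finset.sum_range_succ]
  congr 1
  · exact Finset.sum_congr rfl fun j _ => by rw [hsucc]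
  · show β (h y) = β (h.symm^[p] y)
    by_cases h1 : h y ∈ B
    · have h6 := hB1 _ h1
      have h7 : h.symm^[p + 1] (h y) = h y := by
        conv_lhs => rw [← h6]
        exact symm_it _ _
      rw [hsucc] at h7
      rw [h7]
    · by_cases h2 : h.symm^[p] y ∈ B
      · exfalso
        apply h1
        have h6 := hB1 _ h2
        rw [Function.iterate_succ_apply', it_symm] at h6
        rw [h6]
        exact h2
      · rw [hβ _ h1, hβ _ h2]

include hB2 hβ hq in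
theorem bf_in {y : Y} (hy : y ∈ B) : bf h β q y = β y := by
  unfold bf
  rw [Finset.sum_eq_single_of_mem 0 (Finset.mem_range.2 hq)]
  · rfl
  · intro j hj hj0
    apply hβ
    exact E_disj hB2 (Nat.pos_of_ne_zero hj0) (Finset.mem_range.1 hj) (j := 0) hy

include hB2 hL1 hL2 hq in
theorem gf_B {y : Y} (hy : y ∈ B) (t : ℝ) : gf h L q t y = L t y :=
  gf_in hB2 hL1 hL2 q le_rfl (j := 0) hq hy t

end comb

section smooth

variable {k : ℕ} {Y : Type u} [TopologicalSpace Y] [ChartedSpace (V k) Y]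

theorem it_smooth {g : Y → Y} (hg : ContMDiff (𝓡 k) (𝓡 k) ∞ g) (n : ℕ) :
    ContMDiff (𝓡 k) (𝓡 k) ∞ (g^[n]) := by
  induction n with
  | zero => exact contMDiff_id
  | succ n ih => exact ih.comp hg

theorem gf_smooth {h : Y ≃ Y} (h1 : ContMDiff (𝓡 k) (𝓡 k) ∞ h)
    (h2 : ContMDiff (𝓡 k) (𝓡 k) ∞ h.symm) {L : ℝ → Y → Y}
    (hL : ContMDiff (𝓘(ℝ, ℝ).prod (𝓡 k)) (𝓡 k) ∞ (fun q : ℝ × Y => L q.1 q.2)) (n : ℕ) :
    ContMDiff (𝓘(ℝ, ℝ).prod (𝓡 k)) (𝓡 k) ∞ (fun q : ℝ × Y => gf h L n q.1 q.2) := by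
  induction n with
  | zero => exact contMDiff_snd
  | succ n ih =>
    have e1 : ContMDiff (𝓘(ℝ, ℝ).prod (𝓡 k)) (𝓡 k) ∞
        (fun q : ℝ × Y => h.symm^[n] (gf h L n q.1 q.2)) := (it_smooth h2 n).comp ih
    have e2 : ContMDiff (𝓘(ℝ, ℝ).prod (𝓡 k)) (𝓘(ℝ, ℝ).prod (𝓡 k)) ∞
        (fun q : ℝ × Y => (q.1, h.symm^[n] (gf h L n q.1 q.2))) := contMDiff_fst.prodMk e1
    have e3 := hL.comp e2
    exact (it_smooth h1 n).comp e3

theorem bf_smooth {h : Y ≃ Y} (h2 : ContMDiff (𝓡 k) (𝓡 k) ∞ h.symm) {β : Y → ℂ}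
    (hβ : ContMDiff (𝓡 k) 𝓘(ℝ, ℂ) ∞ β) (q : ℕ) :
    ContMDiff (𝓡 k) 𝓘(ℝ, ℂ) ∞ (bf h β q) := by
  unfold bf
  apply ContMDiff.sum
  intro j _
  exact hβ.comp (it_smooth h2 j)

end smooth

end Pool.Agent.Y271.CP
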