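import Pool.Agent.Y271.CP.Rot
import Pool.Agent.TH290.CL.Flow

/-!
# The flow in a chart
-/

set_option autoImplicit false
set_option linter.unusedSectionVars false

open scoped Manifold ContDiff Topology
open Filter Set Metric

universe u

namespace Pool.Agent.Y271.CP

open Pool.Agent.H718R2.G Pool.Agent.TH290.CL Pool.Agent.W564.SC

variable {k : ℕ} {Y : Type u} [TopologicalSpace Y] [ChartedSpace (V k) Y]

/-- the coordinate ball -/
def Bs (χ : OpenPartialHomeomorph Y (V k)) (ε : ℝ) : Set Y := χ.source ∩ χ ⁻¹' ball 0 ε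

theorem isOpen_Bs (χ : OpenPartialHomeomorph Y (V k)) (ε : ℝ) : IsOpen (Bs χ ε) :=
  χ.isOpen_inter_preimage isOpen_ball

open Classical in
/-- the flow in the chart, extended by the identity -/
noncomputable def lf (χ : OpenPartialHomeomorph Y (V k)) (i j : Fin k) (ε t : ℝ) (y : Y) : Y :=
  if y ∈ χ.source then χ.symm (fl i j ε t (χ y)) else y

open Classical in
/-- the eigenfunction in the chart, extended by zero -/
noncomputable def le (χ : OpenPartialHomeomorph Y (V k)) (i j : Fin k) (ε : ℝ) (y : Y) : ℂ :=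
  if y ∈ χ.source then eig i j ε (χ y) else 0

section

variable {χ : OpenPartialHomeomorph Y (V k)} (hball : closedBall (0 : V k) 1 ⊆ χ.target)
  {i j : Fin k} (hij : i ≠ j) {ε : ℝ} (hε : 0 < ε) (hε1 : ε ≤ 1)

include hball hij hε hε1

theorem fl_target {v : V k} (hv : v ∈ χ.target) (t : ℝ) : fl i j ε t v ∈ χ.target := by
  by_cases h : ε / 2 ≤ ‖v‖
  · rw [fl_id hε h]
    exact hv
  · push Not at h
    apply hball
    rw [mem_closedBall, dist_zero_right, norm_fl hij]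
    linarith

theorem lf_mem {y : Y} (hy : y ∈ χ.source) (t : ℝ) :
    lf χ i j ε t y ∈ χ.source ∧ χ (lf χ i j ε t y) = fl i j ε t (χ y) := by
  unfold lf
  rw [if_pos hy]
  have h := fl_target hball hij hε hε1 (χ.map_source hy) t
  exact ⟨χ.map_target h, χ.right_inv h⟩

theorem lf_zero (y : Y) : lf χ i j ε 0 y = y := by
  unfold lf
  split_ifs with h
  · rw [fl_zero, χ.left_inv h]
  · rfl

theorem lf_add (s t : ℝ) (y : Y) : lf χ i j ε (s + t) y = lf χ i j ε s (lf χ i j ε t y) := by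
  by_cases h : y ∈ χ.source
  · obtain ⟨h1, h2⟩ := lf_mem hball hij hε hε1 h t
    have e1 : ∀ y' ∈ χ.source, lf χ i j ε s y' = χ.symm (fl i j ε s (χ y')) := by
      intro y' hy'
      unfold lf
      rw [if_pos hy']
    rw [e1 _ h1, h2, ← fl_add hij]
    unfold lf
    rw [if_pos h]
  · unfold lf
    rw [if_neg h, if_neg h, if_neg h]

theorem lf_id {y : Y} (h : y ∉ Bs χ (ε / 2)) (t : ℝ) : lf χ i j ε t y = y := by
  unfold lf
  split_ifs with h1
  · have h2 : ε / 2 ≤ ‖χ y‖ := by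
      by_contra h3
      push Not at h3
      exact h ⟨h1, by rw [mem_preimage, mem_ball, dist_zero_right]; exact h3⟩
    rw [fl_id hε h2, χ.left_inv h1]
  · rfl

theorem Bs_half : Bs χ (ε / 2) ⊆ Bs χ ε := by
  rintro y ⟨h1, h2⟩
  exact ⟨h1, ball_subset_ball (by linarith) h2⟩

theorem lf_Bs {y : Y} (h : y ∈ Bs χ ε) (t : ℝ) : lf χ i j ε t y ∈ Bs χ ε := by
  obtain ⟨h1, h2⟩ := lf_mem hball hij hε hε1 h.1 t
  refine ⟨h1, ?_⟩
  have h3 := h.2
  rw [mem_preimage, mem_ball, dist_zero_right] at h3 ⊢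
  rw [h2, norm_fl hij]
  exact h3

theorem le_zero {y : Y} (h : y ∉ Bs χ (ε / 2)) : le χ i j ε y = 0 := by
  unfold le
  split_ifs with h1
  · have h2 : ε / 2 ≤ ‖χ y‖ := by
      by_contra h3
      push Not at h3
      exact h ⟨h1, by rw [mem_preimage, mem_ball, dist_zero_right]; exact h3⟩
    exact eig_zero hε h2
  · rfl

theorem closed_D [T2Space Y] : IsClosed (χ.symm '' closedBall (0 : V k) (ε / 2)) := by
  apply IsCompact.isClosed
  apply (isCompact_closedBall (0 : V k) (ε / 2)).image_of_continuousOn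
  apply χ.continuousOn_symm.mono
  exact (closedBall_subset_closedBall (by linarith)).trans hball

theorem not_D {y : Y} (h : y ∉ χ.symm '' closedBall (0 : V k) (ε / 2)) : y ∉ Bs χ (ε / 2) := by
  rintro ⟨h1, h2⟩
  exact h ⟨χ y, ball_subset_closedBall h2, χ.left_inv h1⟩

theorem D_source {y : Y} (h : y ∉ χ.source) : y ∉ χ.symm '' closedBall (0 : V k) (ε / 2) := by
  rintro ⟨v, hv, rfl⟩
  exact h (χ.map_target (hball (closedBall_subset_closedBall (by linarith) hv)))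

theorem lf_smooth [T2Space Y] [IsManifold (𝓡 k) ∞ Y]
    (hχ : χ ∈ IsManifold.maximalAtlas (𝓡 k) ∞ Y) :
    ContMDiff (𝓘(ℝ, ℝ).prod (𝓡 k)) (𝓡 k) ∞ (fun q : ℝ × Y => lf χ i j ε q.1 q.2) := by
  rintro ⟨t, y⟩
  by_cases hy : y ∈ χ.source
  · have h1 : ContMDiffAt (𝓡 k) (𝓡 k) ∞ χ y :=
      (contMDiffOn_of_mem_maximalAtlas hχ).contMDiffAt (χ.open_source.mem_nhds hy)
    have h2 : ContMDiffAt (𝓘(ℝ, ℝ).prod (𝓡 k)) (𝓡 k) ∞ (fun q : ℝ × Y => χ q.2) (t, y) :=
      ContMDiffAt.comp (g := χ) (f := fun q : ℝ × Y => q.2) (t, y) h1 contMDiffAt_snd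
    have h3 : ContMDiffAt (𝓘(ℝ, ℝ).prod (𝓡 k)) 𝓘(ℝ, ℝ × V k) ∞
        (fun q : ℝ × Y => (q.1, χ q.2)) (t, y) :=
      ContMDiffAt.prodMk_space contMDiffAt_fst h2
    have h4 : ContMDiffAt (𝓘(ℝ, ℝ).prod (𝓡 k)) (𝓡 k) ∞
        (fun q : ℝ × Y => fl i j ε q.1 (χ q.2)) (t, y) := by
      have h5 : ContDiffAt ℝ ∞ (fun q : ℝ × V k => fl i j ε q.1 q.2) (t, χ y) :=
        (fl_smooth i j ε).contDiffAt
      exact h5.comp_contMDiffAt (f := fun q : ℝ × Y => (q.1, χ q.2)) h3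
    have h6 : ContMDiffAt (𝓡 k) (𝓡 k) ∞ χ.symm (fl i j ε t (χ y)) :=
      (contMDiffOn_symm_of_mem_maximalAtlas hχ).contMDiffAt
        (χ.open_target.mem_nhds (fl_target hball hij hε hε1 (χ.map_source hy) t))
    have h7 : ContMDiffAt (𝓘(ℝ, ℝ).prod (𝓡 k)) (𝓡 k) ∞
        (fun q : ℝ × Y => χ.symm (fl i j ε q.1 (χ q.2))) (t, y) :=
      ContMDiffAt.comp (g := χ.symm) (f := fun q : ℝ × Y => fl i j ε q.1 (χ q.2)) (t, y) h6 h4
    refine h7.congr_of_eventuallyEq ?_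
    have h8 : ∀ᶠ q : ℝ × Y in 𝓝 (t, y), q.2 ∈ χ.source :=
      continuous_snd.continuousAt.eventually (χ.open_source.mem_nhds hy)
    filter_upwards [h8] with q hq
    unfold lf
    rw [if_pos hq]
  · have h1 : ContMDiffAt (𝓘(ℝ, ℝ).prod (𝓡 k)) (𝓡 k) ∞ (fun q : ℝ × Y => q.2) (t, y) :=
      contMDiffAt_snd
    refine h1.congr_of_eventuallyEq ?_
    have h8 : ∀ᶠ q : ℝ × Y in 𝓝 (t, y), q.2 ∉ χ.symm '' closedBall (0 : V k) (ε / 2) :=
      continuous_snd.continuousAt.eventually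
        ((closed_D hball hij hε hε1).isOpen_compl.mem_nhds (D_source hball hij hε hε1 hy))
    filter_upwards [h8] with q hq
    exact lf_id hball hij hε hε1 (not_D hball hij hε hε1 hq) _

theorem le_smooth [T2Space Y] [IsManifold (𝓡 k) ∞ Y]
    (hχ : χ ∈ IsManifold.maximalAtlas (𝓡 k) ∞ Y) :
    ContMDiff (𝓡 k) 𝓘(ℝ, ℂ) ∞ (le χ i j ε) := by
  intro y
  by_cases hy : y ∈ χ.source
  · have h1 : ContMDiffAt (𝓡 k) (𝓡 k) ∞ χ y :=
      (contMDiffOn_of_mem_maximalAtlas hχ).contMDiffAt (χ.open_source.mem_nhds hy)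
    have h5 : ContDiffAt ℝ ∞ (eig i j ε : V k → ℂ) (χ y) := (eig_smooth i j ε).contDiffAt
    have h7 : ContMDiffAt (𝓡 k) 𝓘(ℝ, ℂ) ∞ (fun y => eig i j ε (χ y)) y :=
      h5.comp_contMDiffAt (f := χ) h1
    refine h7.congr_of_eventuallyEq ?_
    filter_upwards [χ.open_source.mem_nhds hy] with q hq
    unfold le
    rw [if_pos hq]
  · have h1 : ContMDiffAt (𝓡 k) 𝓘(ℝ, ℂ) ∞ (fun _ : Y => (0 : ℂ)) y := contMDiffAt_const
    refine h1.congr_of_eventuallyEq ?_
    filter_upwards [(closed_D hball hij hε hε1).isOpen_compl.mem_nhds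
      (D_source hball hij hε hε1 hy)] with q hq
    exact le_zero hball hij hε hε1 (not_D hball hij hε hε1 hq)

/-- the point of the circle -/
theorem pt_mem : χ.symm (pt i ε) ∈ Bs χ ε ∧ χ (χ.symm (pt i ε)) = pt i ε := by
  have h1 : pt i ε ∈ χ.target := by
    apply hball
    rw [mem_closedBall, dist_zero_right, norm_pt hε]
    linarith
  refine ⟨⟨χ.map_target h1, ?_⟩, χ.right_inv h1⟩
  rw [mem_preimage, χ.right_inv h1, mem_ball, dist_zero_right, norm_pt hε]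
  linarith

theorem lf_pt_one : lf χ i j ε 1 (χ.symm (pt i ε)) = χ.symm (pt i ε) := by
  obtain ⟨h1, h2⟩ := pt_mem hball hij hε hε1
  unfold lf
  rw [if_pos h1.1, h2, fl_pt_one hε]

theorem le_lf_pt (t : ℝ) : le χ i j ε (lf χ i j ε t (χ.symm (pt i ε))) = ex t := by
  obtain ⟨h1, h2⟩ := pt_mem hball hij hε hε1
  obtain ⟨h3, h4⟩ := lf_mem hball hij hε hε1 h1.1 t
  unfold le
  rw [if_pos h3, h4, h2, eig_fl_pt hij hε]

end

end Pool.Agent.Y271.CP
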