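import Pool.Agent.Y271.CP.Patch
import Pool.Agent.TH290.CL.Main
import Pool.Agent.TH382.HS.Limit
import Pool.Agent.Y271.CP.Defs

/-!
# Arbitrary diffeomorphisms times (limits of) periodic diffeomorphisms
-/

set_option autoImplicit false
set_option linter.unusedSectionVars false

open scoped Manifold ContDiff Topology
open Filter Set Metric

universe u v w

namespace Pool.Agent.Y271.CP

open Pool.Agent.H718R2.G Pool.Agent.TH290.CL Pool.Agent.W564.SC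

theorem isRec_of_returns {X : Type*} [TopologicalSpace X] (F : X ≃ₜ X) (z : X)
    (h : ∀ W ∈ 𝓝 z, ∃ m : ℤ, m ≠ 0 ∧ (F ^ m) z ∈ W) : IsRec F z := by
  intro hemb
  have h1 : IsOpen ({0} : Set ℤ) := isOpen_discrete _
  obtain ⟨W, hW, hW2⟩ := (hemb.isInducing.isOpen_iff).1 h1
  have h2 : z ∈ W := by
    have h3 : (0 : ℤ) ∈ (fun m : ℤ => (F ^ m) z) ⁻¹' W := by
      rw [hW2]
      exact mem_singleton 0
    exact h3
  obtain ⟨m, hm, hm2⟩ := h W (hW.mem_nhds h2)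
  have h3 : m ∈ (fun m : ℤ => (F ^ m) z) ⁻¹' W := hm2
  rw [hW2] at h3
  exact hm h3

section

variable {m k n : ℕ} {M : Type v} [TopologicalSpace M] [ChartedSpace (V m) M]
  {Y : Type w} [TopologicalSpace Y] [T2Space Y] [ChartedSpace (V k) Y] [IsManifold (𝓡 k) ∞ Y]
  {N : Type u} [TopologicalSpace N] [ChartedSpace (V n) N]

variable [T2Space N] [CompactSpace N] [IsManifold (𝓡 n) ∞ N]

theorem closable_near (hk : 2 ≤ k) (r : ℕ∞) (hr : 1 ≤ r)
    (Θ : Diffeomorph ((𝓡 m).prod (𝓡 k)) (𝓡 n) (M × Y) N ∞) (F : DiffM n N r) (x : M) (y : Y)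
    (hF : ProdPer Θ F x y) (W : Set Y) (hW : W ∈ 𝓝 y) :
    ∃ y₁ ∈ W, Closable n N r F (Θ (x, y₁)) := by
  obtain ⟨L, f, h, hx, hrec, hy, hFΘ'⟩ := hF
  have hFΘ : ∀ (l : L) (y' : Y), F (Θ ((l : M), y')) = Θ ((f l : M), h y') := hFΘ'
  obtain ⟨y₁, hy₁, q, G, b, hq, hper, hG, hb, hcomm, hbh, hbG, hG1⟩ := patch_flow hk h y hy W hW
  refine ⟨y₁, hy₁, ?_⟩
  -- iterates of `h`
  have hGit : ∀ (l : ℕ) (t : ℝ) (y : Y), h^[l] (G t y) = G t (h^[l] y) := by
    intro l t y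
    induction l with
    | zero => rfl
    | succ l ih => rw [Function.iterate_succ_apply', Function.iterate_succ_apply', ih, hcomm]
  have hbit : ∀ (l : ℕ) (y : Y), b (h^[l] y) = b y := by
    intro l y
    induction l with
    | zero => rfl
    | succ l ih => rw [Function.iterate_succ_apply', hbh, ih]
  have hbK : ∀ (l : ℕ) (t : ℝ), b (G t (h^[l] y₁)) = ex t := by
    intro l t
    rw [← hGit, hbit, hbG]
  obtain ⟨ψ, hψ⟩ : ∃ ψ : ℝ → N → N, ψ = fun t z => Θ ((Θ.symm z).1, G t (Θ.symm z).2) := ⟨_, rfl⟩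
  have hψΘ : ∀ t l y, ψ t (Θ (l, y)) = Θ (l, G t y) := by
    intro t l y
    rw [hψ]
    dsimp only
    rw [Θ.symm_apply_apply]
  obtain ⟨a, ha⟩ : ∃ a : N → ℂ, a = fun z => b (Θ.symm z).2 := ⟨_, rfl⟩
  have haΘ : ∀ l y, a (Θ (l, y)) = b y := by
    intro l y
    rw [ha]
    dsimp only
    rw [Θ.symm_apply_apply]
  have hflow : IsFlow n N ψ := by
    refine ⟨?_, ?_, ?_⟩
    · have e1 : ContMDiff (𝓘(ℝ, ℝ).prod (𝓡 n)) ((𝓡 m).prod (𝓡 k)) ∞
          (fun p : ℝ × N => Θ.symm p.2) := Θ.symm.contMDiff.comp contMDiff_snd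
      have e2 : ContMDiff (𝓘(ℝ, ℝ).prod (𝓡 n)) (𝓡 m) ∞ (fun p : ℝ × N => (Θ.symm p.2).1) :=
        contMDiff_fst.comp e1
      have e3 : ContMDiff (𝓘(ℝ, ℝ).prod (𝓡 n)) (𝓡 k) ∞ (fun p : ℝ × N => (Θ.symm p.2).2) :=
        contMDiff_snd.comp e1
      have e4 : ContMDiff (𝓘(ℝ, ℝ).prod (𝓡 n)) (𝓡 k) ∞
          (fun p : ℝ × N => G p.1 (Θ.symm p.2).2) := by
        have e5 : ContMDiff (𝓘(ℝ, ℝ).prod (𝓡 n)) (𝓘(ℝ, ℝ).prod (𝓡 k)) ∞
            (fun p : ℝ × N => (p.1, (Θ.symm p.2).2)) := contMDiff_fst.prodMk e3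
        exact hG.smooth.comp e5
      rw [hψ]
      exact Θ.contMDiff.comp (e2.prodMk e4)
    · intro z
      obtain ⟨⟨l, y'⟩, hz⟩ := Θ.surjective z
      have hz' : z = Θ (l, y') := hz.symm
      rw [hz', hψΘ, hG.zero]
    · intro s t z
      obtain ⟨⟨l, y'⟩, hz⟩ := Θ.surjective z
      have hz' : z = Θ (l, y') := hz.symm
      rw [hz', hψΘ, hψΘ, hψΘ, hG.add]
  have hsmooth : ContMDiff (𝓡 n) 𝓘(ℝ, ℂ) ∞ a := by
    have e1 : ContMDiff (𝓡 n) (𝓡 k) ∞ (fun z : N => (Θ.symm z).2) :=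
      contMDiff_snd.comp Θ.symm.contMDiff
    rw [ha]
    exact hb.comp e1
  obtain ⟨K, hK⟩ : ∃ K : Set N, K = {z | ∃ (l : L) (t : ℝ) (i : ℕ),
      z = Θ ((l : M), G t (h^[i] y₁))} := ⟨_, rfl⟩
  have hroot : RootOn n N r F ψ a K 0 0 1 := by
    refine ⟨hflow, hsmooth, ?_, ?_, ?_, ?_, ?_, ?_, ?_, isCoprime_one_right, ?_⟩
    · rw [hK]
      rintro _ ⟨l, t, i, rfl⟩
      refine ⟨f l, t, i + 1, ?_⟩
      rw [hFΘ, hcomm, Function.iterate_succ_apply']
    · rw [hK]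
      rintro _ ⟨l, t, i, rfl⟩
      refine ⟨f.symm l, t, i + (q - 1), ?_⟩
      apply F.injective
      change F (F.symm (Θ ((l : M), G t (h^[i] y₁)))) =
        F (Θ ((f.symm l : M), G t (h^[i + (q - 1)] y₁)))
      rw [F.apply_symm_apply, hFΘ, f.apply_symm_apply, hcomm, ← Function.iterate_succ_apply' h]
      have e1 : i + (q - 1) + 1 = i + q := by omega
      have e2 : h^[i + (q - 1) + 1] y₁ = h^[i] y₁ := by
        rw [e1, Function.iterate_add_apply, hper]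
      have e3 : h^[(i + (q - 1)).succ] y₁ = h^[i] y₁ := e2
      rw [e3]
    · rw [hK]
      rintro _ ⟨l, t, i, rfl⟩ s
      exact ⟨l, s + t, i, by rw [hψΘ, hG.add]⟩
    · rw [hK]
      rintro _ ⟨l, t, i, rfl⟩ s
      rw [hψΘ, hFΘ, hFΘ, hψΘ, hcomm]
    · rw [hK]
      rintro _ ⟨l, t, i, rfl⟩
      rw [haΘ, hbK, norm_ex]
    · rw [hK]
      rintro _ ⟨l, t, i, rfl⟩ s
      rw [hψΘ, haΘ, haΘ, ← hG.add, hbK, hbK, ex_add]
    · rw [hK]
      rintro _ ⟨l, t, i, rfl⟩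
      rw [hFΘ, haΘ, haΘ, hbh, ex_zero, one_mul]
    · rw [hK]
      rintro _ ⟨l, t, i, rfl⟩
      have e0 : ((0 : ℕ) : ℝ) * 0 + ((1 : ℤ) : ℝ) = 1 := by push_cast; ring
      rw [e0, hψΘ, ← hGit, ← hGit, ← hG.add]
      have e1 : G (1 + t) y₁ = G t y₁ := by
        rw [add_comm, hG.add, hG1]
      rw [e1]
      rfl
  have hzK : Θ (x, y₁) ∈ K := by
    rw [hK]
    exact ⟨⟨x, hx⟩, 0, 0, by rw [hG.zero]; rfl⟩
  -- recurrence
  have hFit : ∀ (i : ℕ) (l : L) (y : Y), F^[i] (Θ ((l : M), y)) = Θ ((f^[i] l : L), h^[i] y) := by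
    intro i
    induction i with
    | zero => intro l y; rfl
    | succ i ih =>
      intro l y
      rw [Function.iterate_succ_apply, hFΘ, ih, Function.iterate_succ_apply,
        Function.iterate_succ_apply]
  have hFsy : ∀ (l : L) (y : Y), F.symm (Θ ((l : M), y)) = Θ ((f.symm l : L), h.symm y) := by
    intro l y
    apply F.injective
    change F (F.symm (Θ ((l : M), y))) = F (Θ ((f.symm l : M), h.symm y))
    rw [F.apply_symm_apply, hFΘ, f.apply_symm_apply, h.apply_symm_apply]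
  have hFsit : ∀ (i : ℕ) (l : L) (y : Y),
      F.symm^[i] (Θ ((l : M), y)) = Θ ((f.symm^[i] l : L), h.symm^[i] y) := by
    intro i
    induction i with
    | zero => intro l y; rfl
    | succ i ih =>
      intro l y
      rw [Function.iterate_succ_apply, hFsy, ih, Function.iterate_succ_apply,
        Function.iterate_succ_apply]
  have hperq : ∀ c : ℕ, h^[q * c] y₁ = y₁ := by
    intro c
    induction c with
    | zero => rfl
    | succ c ih => rw [Nat.mul_succ, Function.iterate_add_apply, hper, ih]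
  have hpers : ∀ c : ℕ, h.symm^[q * c] y₁ = y₁ := by
    intro c
    have hli : Function.LeftInverse h.symm h := fun y => h.symm_apply_apply y
    have h1 := (hli.iterate (q * c)) y₁
    rwa [hperq] at h1
  have hrecF : IsRec F.toHomeomorph (Θ (x, y₁)) := by
    apply isRec_of_returns
    intro U hU
    have hU' : {l : L | Θ ((l : M), y₁) ∈ U} ∈ 𝓝 (⟨x, hx⟩ : L) := by
      have hc : Continuous (fun l : L => Θ ((l : M), y₁)) :=
        Θ.continuous.comp (continuous_subtype_val.prodMk continuous_const)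
      exact hc.continuousAt.preimage_mem_nhds hU
    rcases rec_cases f ⟨x, hx⟩ hrec with h1 | h1
    · obtain ⟨c, -, hc1, ⟨d, rfl⟩, hc2, -⟩ :=
        blocks f f.continuous ⟨x, hx⟩ h1 _ hU' 0 q hq 1 one_pos 0
      refine ⟨((q * d : ℕ) : ℤ), by exact_mod_cast (by omega : q * d ≠ 0), ?_⟩
      rw [zpow_natCast, pow_apply]
      show F^[q * d] (Θ (x, y₁)) ∈ U
      rw [hFit (q * d) ⟨x, hx⟩, hperq]
      exact hc2
    · obtain ⟨c, -, hc1, ⟨d, rfl⟩, hc2, -⟩ :=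
        blocks f.symm f.symm.continuous ⟨x, hx⟩ h1 _ hU' 0 q hq 1 one_pos 0
      have hne : -((q * d : ℕ) : ℤ) ≠ 0 := by
        have : (q * d : ℕ) ≠ 0 := by omega
        intro h2
        apply this
        exact_mod_cast neg_eq_zero.1 h2
      refine ⟨-((q * d : ℕ) : ℤ), hne, ?_⟩
      rw [zpow_neg_apply]
      show F.symm^[q * d] (Θ (x, y₁)) ∈ U
      rw [hFsit (q * d) ⟨x, hx⟩, hpers]
      exact hc2
  exact Pool.Agent.TH290.CL.main r hr F hroot _ hzK hrecF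

theorem main (hk : 2 ≤ k) (r : ℕ∞) (hr : 1 ≤ r)
    (Θ : Diffeomorph ((𝓡 m).prod (𝓡 k)) (𝓡 n) (M × Y) N ∞) (F : DiffM n N r) (x : M) (y : Y)
    (h : ∀ U : Set (DiffM n N r), IsOpen[strongTop n N r] U → F ∈ U → ∃ F' ∈ U, ProdPer Θ F' x y) :
    ∀ U : Set (DiffM n N r), IsOpen[strongTop n N r] U → F ∈ U → ∃ G ∈ U, IsPer G (Θ (x, y)) := by
  refine Pool.Agent.TH382.HS.closable_of_limit F (Θ (x, y)) fun U hU hFU => ?_
  obtain ⟨F', hF'U, hF'⟩ := h U hU hFU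
  refine ⟨F', hF'U, ?_⟩
  rw [mem_closure_iff_nhds]
  intro U' hU'
  have hc : Continuous (fun y : Y => Θ (x, y)) := Θ.continuous.comp (by fun_prop)
  have hW : {y : Y | Θ (x, y) ∈ U'} ∈ 𝓝 y := hc.continuousAt.preimage_mem_nhds hU'
  obtain ⟨y₁, hy₁, hy₂⟩ := closable_near hk r hr Θ F' x y hF' _ hW
  exact ⟨Θ (x, y₁), hy₁, hy₂⟩

end

end Pool.Agent.Y271.CP
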