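import Pool.Agent.Y271.CP.Glob
import Pool.Agent.W564.SC.Lib

/-!
# Periodic patches carry a commuting circle flow
-/

set_option autoImplicit false
set_option linter.unusedSectionVars false

open scoped Manifold ContDiff Topology
open Filter Set Metric

universe u

namespace Pool.Agent.Y271.CP

open Pool.Agent.H718R2.G Pool.Agent.TH290.CL Pool.Agent.W564.SC

section top

variable {Y : Type u} [TopologicalSpace Y] [T2Space Y] [BaireSpace Y] (h : Y → Y)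
  (hc : Continuous h)

include hc in
/-- a nonempty open set of periodic points contains an open set of points of the same period -/
theorem exists_period {O : Set Y} (hO : IsOpen O) (hne : O.Nonempty) (P : ℕ → Prop)
    (hP : ∀ y ∈ O, ∃ m, 1 ≤ m ∧ P m ∧ h^[m] y = y) :
    ∃ m, 1 ≤ m ∧ P m ∧ ∃ O' : Set Y, IsOpen O' ∧ O'.Nonempty ∧ O' ⊆ O ∧ ∀ y ∈ O', h^[m] y = y := by
  classical
  set C : ℕ → Set Y := fun m => if 1 ≤ m ∧ P m then {y | h^[m] y = y} ∪ Oᶜ else Oᶜ with hC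
  have hcl : ∀ m, IsClosed (C m) := by
    intro m
    rw [hC]
    dsimp only
    split_ifs
    · exact (isClosed_eq (hc.iterate m) continuous_id).union hO.isClosed_compl
    · exact hO.isClosed_compl
  have hun : ⋃ m, C m = univ := by
    rw [eq_univ_iff_forall]
    intro y
    rw [mem_iUnion]
    by_cases hy : y ∈ O
    · obtain ⟨m, hm1, hm2, hm3⟩ := hP y hy
      refine ⟨m, ?_⟩
      rw [hC]
      dsimp only
      rw [if_pos ⟨hm1, hm2⟩]
      exact Or.inl hm3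
    · refine ⟨0, ?_⟩
      rw [hC]
      dsimp only
      rw [if_neg (by omega)]
      exact hy
  have hd := dense_iUnion_interior_of_closed hcl hun
  obtain ⟨y, hy1, hy2⟩ := hd.inter_open_nonempty O hO hne
  rw [mem_iUnion] at hy2
  obtain ⟨m, hm⟩ := hy2
  by_cases hmP : 1 ≤ m ∧ P m
  · refine ⟨m, hmP.1, hmP.2, O ∩ interior (C m), hO.inter isOpen_interior, ⟨y, hy1, hm⟩,
      inter_subset_left, ?_⟩
    rintro y' ⟨h1, h2⟩
    have h3 := interior_subset h2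
    rw [hC] at h3
    dsimp only at h3
    rw [if_pos hmP] at h3
    rcases h3 with h3 | h3
    · exact h3
    · exact absurd h1 h3
  · exfalso
    have h3 := interior_subset hm
    rw [hC] at h3
    dsimp only at h3
    rw [if_neg hmP] at h3
    exact h3 hy1

include hc in
theorem exists_patch {W : Set Y} (hW : IsOpen W) (hne : (W ∩ interior (Function.periodicPts h)).Nonempty) :
    ∃ (q : ℕ) (O : Set Y), 1 ≤ q ∧ IsOpen O ∧ O.Nonempty ∧ O ⊆ W ∧ (∀ y ∈ O, h^[q] y = y) ∧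
      ∀ j, 0 < j → j < q → ∀ y ∈ O, h^[j] y ∉ O := by
  classical
  have hex : ∃ m, 1 ≤ m ∧ ∃ O' : Set Y, IsOpen O' ∧ O'.Nonempty ∧ O' ⊆ W ∧
      ∀ y ∈ O', h^[m] y = y := by
    obtain ⟨m, h1, -, O', h2, h3, h4, h5⟩ := exists_period h hc
      (hW.inter (isOpen_interior (s := Function.periodicPts h))) hne (fun _ => True) (by
        rintro y ⟨_, hy⟩
        obtain ⟨m, hm, hm2⟩ := interior_subset hy
        exact ⟨m, hm, trivial, hm2⟩)
    exact ⟨m, h1, O', h2, h3, h4.trans inter_subset_left, h5⟩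
  have hspec := Nat.find_spec hex
  have hmin := fun j (hj : j < Nat.find hex) => Nat.find_min hex hj
  obtain ⟨q, hqdef⟩ : ∃ q, q = Nat.find hex := ⟨_, rfl⟩
  rw [← hqdef] at hspec hmin
  obtain ⟨hq1, O, hO1, hO2, hO3, hO4⟩ := hspec
  -- a point whose first iterates are different from it
  have hpt : ∃ y ∈ O, ∀ j, 0 < j → j < q → h^[j] y ≠ y := by
    by_contra hcon
    push Not at hcon
    obtain ⟨m, h1, h2, O', h3, h4, h5, h6⟩ := exists_period h hc hO1 hO2 (fun m => m < q) (by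
      intro y hy
      obtain ⟨j, hj1, hj2, hj3⟩ := hcon y hy
      exact ⟨j, hj1, hj2, hj3⟩)
    exact hmin m h2 ⟨h1, O', h3, h4, h5.trans hO3, h6⟩
  obtain ⟨y, hy, hyj⟩ := hpt
  have hsep : ∀ j, ∃ A : Set Y, IsOpen A ∧ y ∈ A ∧ (0 < j → j < q → ∀ y' ∈ A, h^[j] y' ∉ A) := by
    intro j
    by_cases hj : 0 < j ∧ j < q
    · obtain ⟨A, B, hA, hB, hyA, hyB, hAB⟩ := t2_separation (hyj j hj.1 hj.2)
      refine ⟨B ∩ h^[j] ⁻¹' A, hB.inter (hA.preimage (hc.iterate j)), ⟨hyB, hyA⟩, fun _ _ => ?_⟩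
      rintro y' ⟨_, h2⟩ ⟨h3, _⟩
      exact disjoint_left.1 hAB h2 h3
    · exact ⟨univ, isOpen_univ, mem_univ _, fun h1 h2 => absurd ⟨h1, h2⟩ hj⟩
  choose A hA1 hA2 hA3 using hsep
  refine ⟨q, O ∩ ⋂ j ∈ Finset.range q, A j, hq1, hO1.inter ?_, ⟨y, hy, ?_⟩,
    inter_subset_left.trans hO3, fun y hy => hO4 y hy.1, ?_⟩
  · exact isOpen_biInter_finset fun j _ => hA1 j
  · exact mem_iInter₂.2 fun j _ => hA2 j
  · rintro j hj1 hj2 y' ⟨_, h2⟩ ⟨_, h4⟩
    have h5 := mem_iInter₂.1 h2 j (Finset.mem_range.2 hj2)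
    have h6 := mem_iInter₂.1 h4 j (Finset.mem_range.2 hj2)
    exact hA3 j hj1 hj2 y' h5 h6

end top

variable {k : ℕ} {Y : Type u} [TopologicalSpace Y] [T2Space Y] [ChartedSpace (V k) Y]
  [IsManifold (𝓡 k) ∞ Y]

/-- Near every point of the closure of the interior of the set of the periodic points there are
circles on which an iterate of `h` is the identity, together with a smooth flow which commutes with
`h` and rotates these circles. -/
theorem patch_flow (hk : 2 ≤ k) (h : Diffeomorph (𝓡 k) (𝓡 k) Y Y ∞) (y : Y)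
    (hy : y ∈ closure (interior (Function.periodicPts h))) (W : Set Y) (hW : W ∈ 𝓝 y) :
    ∃ y₁ ∈ W, ∃ (q : ℕ) (G : ℝ → Y → Y) (b : Y → ℂ), 1 ≤ q ∧ h^[q] y₁ = y₁ ∧ IsFlow k Y G ∧
      ContMDiff (𝓡 k) 𝓘(ℝ, ℂ) ∞ b ∧ (∀ t y, h (G t y) = G t (h y)) ∧ (∀ y, b (h y) = b y) ∧
      (∀ t, b (G t y₁) = ex t) ∧ G 1 y₁ = y₁ := by
  have : LocallyCompactSpace Y := ChartedSpace.locallyCompactSpace (V k) Y
  obtain ⟨W', hW'W, hW'o, hyW'⟩ := mem_nhds_iff.1 hW
  obtain ⟨q, O, hq, hO, ⟨z, hz⟩, hOW, hO1, hO2⟩ := exists_patch h h.continuous hW'o (by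
    rw [inter_comm]
    obtain ⟨z, h1, h2⟩ := mem_closure_iff.1 hy W' hW'o hyW'
    exact ⟨z, h2, h1⟩)
  obtain ⟨χ, hχ⟩ := Pool.Agent.W699.SC.gc k Y z
  obtain ⟨ε, hε, hε1, hεO⟩ : ∃ ε : ℝ, 0 < ε ∧ ε ≤ 1 ∧ Bs χ ε ⊆ O := by
    have h1 : ContinuousAt χ.symm (0 : V k) := by
      apply χ.continuousAt_symm
      exact hχ.ball (mem_closedBall_self (by norm_num))
    have h2 : χ.symm (0 : V k) = z := by
      rw [← hχ.zero]
      exact χ.left_inv hχ.src
    have h3 : χ.symm ⁻¹' O ∈ 𝓝 (0 : V k) := by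
      apply h1.preimage_mem_nhds
      rw [h2]
      exact hO.mem_nhds hz
    obtain ⟨ε, hε, hε2⟩ := Metric.mem_nhds_iff.1 h3
    refine ⟨min ε 1, lt_min hε one_pos, min_le_right _ _, ?_⟩
    rintro y' ⟨h4, h5⟩
    have h6 := hε2 (ball_subset_ball (min_le_left _ _) h5)
    rw [mem_preimage, χ.left_inv h4] at h6
    exact h6
  set i : Fin k := ⟨0, by omega⟩ with hi
  set j : Fin k := ⟨1, by omega⟩ with hj
  have hij : i ≠ j := by
    intro h1
    have := congrArg Fin.val h1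
    simp [hi, hj] at this
  have hball := hχ.ball
  have hB1 : ∀ y ∈ Bs χ ε, h.toEquiv^[q] y = y := fun y hy => hO1 y (hεO hy)
  have hB2 : ∀ l, 0 < l → l < q → ∀ y ∈ Bs χ ε, h.toEquiv^[l] y ∉ Bs χ ε :=
    fun l h1 h2 y hy h3 => hO2 l h1 h2 y (hεO hy) (hεO h3)
  have hL1 : ∀ t y, y ∉ Bs χ ε → lf χ i j ε t y = y := fun t y hy =>
    lf_id hball hij hε hε1 (fun h1 => hy (Bs_half hball hij hε hε1 h1)) t
  have hL2 : ∀ t, ∀ y ∈ Bs χ ε, lf χ i j ε t y ∈ Bs χ ε := fun t y hy =>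
    lf_Bs hball hij hε hε1 hy t
  have hL0 := lf_zero (χ := χ) hball hij hε hε1
  have hLa := lf_add (χ := χ) hball hij hε hε1
  have hβ : ∀ y, y ∉ Bs χ ε → le χ i j ε y = 0 := fun y hy =>
    le_zero hball hij hε hε1 (fun h1 => hy (Bs_half hball hij hε hε1 h1))
  obtain ⟨hp1, hp2⟩ := pt_mem (χ := χ) hball hij hε hε1
  have hs1 : ContMDiff (𝓡 k) (𝓡 k) ∞ h.toEquiv := h.contMDiff
  have hs2 : ContMDiff (𝓡 k) (𝓡 k) ∞ h.toEquiv.symm := h.symm.contMDiff
  refine ⟨χ.symm (pt i ε), hW'W (hOW (hεO hp1)), q, gf h.toEquiv (lf χ i j ε) q,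
    bf h.toEquiv (le χ i j ε) q, hq, hO1 _ (hεO hp1), ⟨?_, ?_, ?_⟩, ?_, ?_, ?_, ?_, ?_⟩
  · exact gf_smooth hs1 hs2 (lf_smooth hball hij hε hε1 hχ.mem) q
  · exact gf_zero hB2 hL1 hL2 hL0
  · exact gf_add hB2 hL1 hL2 hLa
  · exact bf_smooth hs2 (le_smooth hball hij hε hε1 hχ.mem) q
  · exact gf_comm hB1 hB2 hL1 hL2 hq
  · exact bf_comm hB1 hβ hq
  · intro t
    rw [gf_B hB2 hL1 hL2 hq hp1, bf_in hB2 hβ hq (hL2 t _ hp1)]
    exact le_lf_pt hball hij hε hε1 t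
  · rw [gf_B hB2 hL1 hL2 hq hp1]
    exact lf_pt_one hball hij hε hε1

end Pool.Agent.Y271.CP
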