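import Pool.Agent.TH290.CL.Ex
import Pool.Agent.H718R2.G0

/-!
# Rotations of two coordinates, with a radial cut-off
-/

set_option autoImplicit false

open scoped Manifold ContDiff Topology
open Filter Set Metric

namespace Pool.Agent.Y271.CP

open Pool.Agent.H718R2.G Pool.Agent.TH290.CL

variable {k : ℕ}

/-- the rotation by the angle `θ` of the coordinates `i` and `j` -/
noncomputable def rot (i j : Fin k) (θ : ℝ) (v : V k) : V k :=
  WithLp.toLp 2 fun l => if l = i then Real.cos θ * v i - Real.sin θ * v j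
    else if l = j then Real.sin θ * v i + Real.cos θ * v j else v l

theorem rot_apply (i j : Fin k) (θ : ℝ) (v : V k) (l : Fin k) :
    rot i j θ v l = if l = i then Real.cos θ * v i - Real.sin θ * v j
    else if l = j then Real.sin θ * v i + Real.cos θ * v j else v l := rfl

theorem rot_i (i j : Fin k) (θ : ℝ) (v : V k) :
    rot i j θ v i = Real.cos θ * v i - Real.sin θ * v j := by
  rw [rot_apply, if_pos rfl]

theorem rot_j {i j : Fin k} (hij : i ≠ j) (θ : ℝ) (v : V k) :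
    rot i j θ v j = Real.sin θ * v i + Real.cos θ * v j := by
  rw [rot_apply, if_neg hij.symm, if_pos rfl]

theorem rot_l {i j : Fin k} (θ : ℝ) (v : V k) {l : Fin k} (hi : l ≠ i) (hj : l ≠ j) :
    rot i j θ v l = v l := by
  rw [rot_apply, if_neg hi, if_neg hj]

theorem rot_zero (i j : Fin k) (v : V k) : rot i j 0 v = v := by
  ext l
  rw [rot_apply]
  split_ifs with h1 h2
  · rw [h1]; simp
  · rw [h2]; simp
  · rfl

theorem rot_add {i j : Fin k} (hij : i ≠ j) (a b : ℝ) (v : V k) :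
    rot i j (a + b) v = rot i j a (rot i j b v) := by
  ext l
  rw [rot_apply, rot_apply, rot_i, rot_j hij]
  split_ifs with h1 h2
  · rw [Real.cos_add, Real.sin_add]; ring
  · rw [Real.cos_add, Real.sin_add]; ring
  · rw [rot_l _ _ h1 h2]

theorem norm_rot {i j : Fin k} (hij : i ≠ j) (θ : ℝ) (v : V k) : ‖rot i j θ v‖ = ‖v‖ := by
  have key : ∀ g : Fin k → ℝ, ∑ l, g l = g i + (g j + ∑ l ∈ (Finset.univ.erase i).erase j, g l) := by
    intro g
    rw [Finset.add_sum_erase _ _ (Finset.mem_erase.2 ⟨hij.symm, Finset.mem_univ j⟩),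
      Finset.add_sum_erase _ _ (Finset.mem_univ i)]
  rw [EuclideanSpace.norm_eq, EuclideanSpace.norm_eq]
  congr 1
  rw [key, key, rot_i, rot_j hij]
  have h1 : ∑ l ∈ (Finset.univ.erase i).erase j, ‖rot i j θ v l‖ ^ 2 =
      ∑ l ∈ (Finset.univ.erase i).erase j, ‖v l‖ ^ 2 := by
    refine Finset.sum_congr rfl fun l hl => ?_
    rw [Finset.mem_erase, Finset.mem_erase] at hl
    rw [rot_l _ _ hl.2.1 hl.1]
  rw [h1]
  simp only [Real.norm_eq_abs, sq_abs]
  have h2 := Real.sin_sq_add_cos_sq θ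
  linear_combination (v i ^ 2 + v j ^ 2) * h2

theorem rot_smooth (i j : Fin k) : ContDiff ℝ ∞ (fun q : ℝ × V k => rot i j q.1 q.2) := by
  rw [contDiff_euclidean]
  intro l
  have hc : ∀ l : Fin k, ContDiff ℝ ∞ (fun q : ℝ × V k => q.2 l) := by
    intro l
    have h1 : ContDiff ℝ ∞ (fun v : V k => v l) := by
      exact contDiff_euclidean.1 contDiff_id l
    exact h1.comp contDiff_snd
  have hcos : ContDiff ℝ ∞ (fun q : ℝ × V k => Real.cos q.1) := Real.contDiff_cos.comp contDiff_fst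
  have hsin : ContDiff ℝ ∞ (fun q : ℝ × V k => Real.sin q.1) := Real.contDiff_sin.comp contDiff_fst
  simp only [rot_apply]
  split_ifs with h1 h2
  · exact (hcos.mul (hc i)).sub (hsin.mul (hc j))
  · exact (hsin.mul (hc i)).add (hcos.mul (hc j))
  · exact hc l

/-- the radial cut-off: `1` for `‖v‖ ≤ ε / 4` and `0` for `‖v‖ ≥ ε / 2` -/
noncomputable def cut (ε : ℝ) (v : V k) : ℝ :=
  Real.smoothTransition ((ε ^ 2 / 4 - ‖v‖ ^ 2) / (3 * ε ^ 2 / 16))

theorem cut_smooth (ε : ℝ) : ContDiff ℝ ∞ (cut ε : V k → ℝ) := by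
  unfold cut
  refine Real.smoothTransition.contDiff.comp ?_
  exact (contDiff_const.sub (contDiff_norm_sq ℝ)).div_const _

theorem cut_one {ε : ℝ} (hε : 0 < ε) {v : V k} (hv : ‖v‖ ≤ ε / 4) : cut ε v = 1 := by
  unfold cut
  apply Real.smoothTransition.one_of_one_le
  rw [one_le_div (by positivity)]
  have h0 := norm_nonneg v
  nlinarith

theorem cut_zero {ε : ℝ} (hε : 0 < ε) {v : V k} (hv : ε / 2 ≤ ‖v‖) : cut ε v = 0 := by
  unfold cut
  apply Real.smoothTransition.zero_of_nonpos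
  apply div_nonpos_of_nonpos_of_nonneg _ (by positivity)
  nlinarith

/-- the flow on `ℝᵏ` -/
noncomputable def fl (i j : Fin k) (ε t : ℝ) (v : V k) : V k :=
  rot i j (2 * Real.pi * t * cut ε v) v

theorem norm_fl {i j : Fin k} (hij : i ≠ j) (ε t : ℝ) (v : V k) : ‖fl i j ε t v‖ = ‖v‖ :=
  norm_rot hij _ v

theorem cut_fl {i j : Fin k} (hij : i ≠ j) (ε t : ℝ) (v : V k) :
    cut ε (fl i j ε t v) = cut ε v := by
  unfold cut
  rw [norm_fl hij]

theorem fl_zero (i j : Fin k) (ε : ℝ) (v : V k) : fl i j ε 0 v = v := by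
  unfold fl
  rw [mul_zero, zero_mul, rot_zero]

theorem fl_add {i j : Fin k} (hij : i ≠ j) (ε s t : ℝ) (v : V k) :
    fl i j ε (s + t) v = fl i j ε s (fl i j ε t v) := by
  have h := cut_fl hij ε t v
  unfold fl at h ⊢
  rw [h, ← rot_add hij]
  congr 1
  ring

theorem fl_id {i j : Fin k} {ε : ℝ} (hε : 0 < ε) {v : V k} (hv : ε / 2 ≤ ‖v‖) (t : ℝ) :
    fl i j ε t v = v := by
  unfold fl
  rw [cut_zero hε hv, mul_zero, rot_zero]

theorem fl_smooth (i j : Fin k) (ε : ℝ) : ContDiff ℝ ∞ (fun q : ℝ × V k => fl i j ε q.1 q.2) := by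
  obtain ⟨g, hg⟩ : ∃ g : ℝ × V k → ℝ × V k, g = fun q => (2 * Real.pi * q.1 * cut ε q.2, q.2) :=
    ⟨_, rfl⟩
  have h1 : ContDiff ℝ ∞ g := by
    rw [hg]
    refine ContDiff.prodMk ?_ contDiff_snd
    exact (contDiff_const.mul contDiff_fst).mul ((cut_smooth ε).comp contDiff_snd)
  have h2 := ContDiff.comp (rot_smooth i j) h1
  have h3 : (fun q : ℝ × V k => fl i j ε q.1 q.2) =
      (fun q : ℝ × V k => rot i j q.1 q.2) ∘ g := by
    funext q
    rw [Function.comp_apply, hg]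
    rfl
  rw [h3]
  exact h2

/-- the eigenfunction on `ℝᵏ` -/
noncomputable def eig (i j : Fin k) (ε : ℝ) (v : V k) : ℂ :=
  (cut ε v : ℂ) * (((v i : ℝ) : ℂ) + ((v j : ℝ) : ℂ) * Complex.I) * ((8 / ε : ℝ) : ℂ)

theorem eig_smooth (i j : Fin k) (ε : ℝ) : ContDiff ℝ ∞ (eig i j ε : V k → ℂ) := by
  have hc : ∀ l : Fin k, ContDiff ℝ ∞ (fun v : V k => ((v l : ℝ) : ℂ)) := fun l =>
    Complex.ofRealCLM.contDiff.comp (contDiff_euclidean.1 contDiff_id l)
  have h1 : ContDiff ℝ ∞ (fun v : V k => ((cut ε v : ℝ) : ℂ)) :=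
    Complex.ofRealCLM.contDiff.comp (cut_smooth ε)
  unfold eig
  exact (h1.mul ((hc i).add ((hc j).mul contDiff_const))).mul contDiff_const

theorem eig_zero {i j : Fin k} {ε : ℝ} (hε : 0 < ε) {v : V k} (hv : ε / 2 ≤ ‖v‖) :
    eig i j ε v = 0 := by
  unfold eig
  rw [cut_zero hε hv]
  simp

/-- the point of the circle -/
noncomputable def pt (i : Fin k) (ε : ℝ) : V k := EuclideanSpace.single i (ε / 8)

theorem norm_pt {ε : ℝ} (hε : 0 < ε) (i : Fin k) : ‖pt i ε‖ = ε / 8 := by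
  unfold pt
  rw [PiLp.norm_single, Real.norm_of_nonneg (by positivity)]

theorem fl_pt {i j : Fin k} {ε : ℝ} (hε : 0 < ε) (t : ℝ) :
    fl i j ε t (pt i ε) = rot i j (2 * Real.pi * t) (pt i ε) := by
  unfold fl
  rw [cut_one hε (by rw [norm_pt hε]; linarith), mul_one]

theorem fl_pt_one {i j : Fin k} {ε : ℝ} (hε : 0 < ε) : fl i j ε 1 (pt i ε) = pt i ε := by
  rw [fl_pt hε, mul_one]
  ext l
  rw [rot_apply, Real.cos_two_pi, Real.sin_two_pi]
  split_ifs with h1 h2
  · rw [h1]; ring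
  · rw [h2]; ring
  · rfl

theorem eig_fl_pt {i j : Fin k} (hij : i ≠ j) {ε : ℝ} (hε : 0 < ε) (t : ℝ) :
    eig i j ε (fl i j ε t (pt i ε)) = ex t := by
  have hp : cut ε (fl i j ε t (pt i ε)) = 1 := by
    rw [cut_fl hij, cut_one hε (by rw [norm_pt hε]; linarith)]
  have hi : pt i ε i = ε / 8 := by
    unfold pt
    simp
  have hj : pt i ε j = 0 := by
    unfold pt
    simp [hij.symm]
  unfold eig
  rw [hp, fl_pt hε, rot_i, rot_j hij, hi, hj, ex_eq, Complex.exp_mul_I, ← Complex.ofReal_cos,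
    ← Complex.ofReal_sin]
  have h8 : ((ε : ℝ) : ℂ) ≠ 0 := by exact_mod_cast hε.ne'
  push_cast
  field_simp
  ring

end Pool.Agent.Y271.CP
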