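import Pool.Agent.Y271.CP.Main
import Pool.Agent.TH80.CLX.Fam

/-!
# Arbitrary diffeomorphisms times elements of compact groups
-/

set_option autoImplicit false
set_option linter.unusedSectionVars false

open scoped Manifold ContDiff Topology
open Filter Set Metric

universe u v w

namespace Pool.Agent.Y271.CP

open Pool.Agent.H718R2.G Pool.Agent.TH290.CL Pool.Agent.W564.SC

section

variable {m k n d : ℕ} {M : Type v} [TopologicalSpace M] [ChartedSpace (V m) M]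
  {Y : Type w} [TopologicalSpace Y] [T2Space Y] [ChartedSpace (V k) Y] [IsManifold (𝓡 k) ∞ Y]
  {N : Type u} [TopologicalSpace N] [ChartedSpace (V n) N]

variable (k) in
/-- `φ` is a smooth action of `ℝ^d`. -/
structure IsAct (φ : V d → Y → Y) : Prop where
  smooth : ContMDiff ((𝓡 d).prod (𝓡 k)) (𝓡 k) ∞ (fun p : V d × Y => φ p.1 p.2)
  zero : ∀ y, φ 0 y = y
  add : ∀ s t y, φ (s + t) y = φ s (φ t y)

/-- the diffeomorphism `h ∘ φ s` -/
noncomputable def actD {φ : V d → Y → Y} (hφ : IsAct k φ) (h : Diffeomorph (𝓡 k) (𝓡 k) Y Y ∞)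
    (s : V d) : Diffeomorph (𝓡 k) (𝓡 k) Y Y ∞ where
  toFun y := φ s (h y)
  invFun y := h.symm (φ (-s) y)
  left_inv y := by
    show h.symm (φ (-s) (φ s (h y))) = y
    rw [← hφ.add, neg_add_cancel, hφ.zero, h.symm_apply_apply]
  right_inv y := by
    show φ s (h (h.symm (φ (-s) y))) = y
    rw [h.apply_symm_apply, ← hφ.add, add_neg_cancel, hφ.zero]
  contMDiff_toFun := by
    have e1 : ContMDiff (𝓡 k) ((𝓡 d).prod (𝓡 k)) ∞ (fun y : Y => (s, h y)) :=
      contMDiff_const.prodMk h.contMDiff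
    exact hφ.smooth.comp e1
  contMDiff_invFun := by
    have e1 : ContMDiff (𝓡 k) ((𝓡 d).prod (𝓡 k)) ∞ (fun y : Y => (-s, y)) :=
      contMDiff_const.prodMk contMDiff_id
    exact h.symm.contMDiff.comp (hφ.smooth.comp e1)

/-- the family `(id × φ s) ∘ F` -/
noncomputable def prodD {φ : V d → Y → Y} (hφ : IsAct k φ)
    (Θ : Diffeomorph ((𝓡 m).prod (𝓡 k)) (𝓡 n) (M × Y) N ∞) {r : ℕ∞} (F : DiffM n N r)
    (s : V d) : DiffM n N r where
  toFun z := Θ ((Θ.symm (F z)).1, φ s (Θ.symm (F z)).2)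
  invFun z := F.symm (Θ ((Θ.symm z).1, φ (-s) (Θ.symm z).2))
  left_inv z := by
    show F.symm (Θ ((Θ.symm (Θ ((Θ.symm (F z)).1, φ s (Θ.symm (F z)).2))).1,
      φ (-s) (Θ.symm (Θ ((Θ.symm (F z)).1, φ s (Θ.symm (F z)).2))).2)) = z
    rw [Θ.symm_apply_apply]
    dsimp only
    rw [← hφ.add, neg_add_cancel, hφ.zero, Prod.mk.eta, Θ.apply_symm_apply, F.symm_apply_apply]
  right_inv z := by
    show Θ ((Θ.symm (F (F.symm (Θ ((Θ.symm z).1, φ (-s) (Θ.symm z).2))))).1,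
      φ s (Θ.symm (F (F.symm (Θ ((Θ.symm z).1, φ (-s) (Θ.symm z).2))))).2) = z
    rw [F.apply_symm_apply, Θ.symm_apply_apply]
    dsimp only
    rw [← hφ.add, add_neg_cancel, hφ.zero, Prod.mk.eta, Θ.apply_symm_apply]
  contMDiff_toFun := by
    have hr : ((r : ℕ∞) : WithTop ℕ∞) ≤ ((⊤ : ℕ∞) : WithTop ℕ∞) := by exact_mod_cast le_top
    have e0 : ContMDiff (𝓡 n) ((𝓡 m).prod (𝓡 k)) r (fun z : N => Θ.symm (F z)) :=
      (Θ.symm.contMDiff.of_le hr).comp F.contMDiff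
    have e1 : ContMDiff (𝓡 n) ((𝓡 m).prod (𝓡 k)) r
        (fun z : N => ((Θ.symm (F z)).1, φ s (Θ.symm (F z)).2)) := by
      have e2 : ContMDiff (𝓡 n) ((𝓡 d).prod (𝓡 k)) r (fun z : N => (s, (Θ.symm (F z)).2)) :=
        contMDiff_const.prodMk (contMDiff_snd.comp e0)
      exact (contMDiff_fst.comp e0).prodMk ((hφ.smooth.of_le hr).comp e2)
    exact (Θ.contMDiff.of_le hr).comp e1
  contMDiff_invFun := by
    have hr : ((r : ℕ∞) : WithTop ℕ∞) ≤ ((⊤ : ℕ∞) : WithTop ℕ∞) := by exact_mod_cast le_top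
    have e0 : ContMDiff (𝓡 n) ((𝓡 m).prod (𝓡 k)) r (fun z : N => Θ.symm z) :=
      (Θ.symm.contMDiff.of_le hr)
    have e1 : ContMDiff (𝓡 n) ((𝓡 m).prod (𝓡 k)) r
        (fun z : N => ((Θ.symm z).1, φ (-s) (Θ.symm z).2)) := by
      have e2 : ContMDiff (𝓡 n) ((𝓡 d).prod (𝓡 k)) r (fun z : N => (-s, (Θ.symm z).2)) :=
        contMDiff_const.prodMk (contMDiff_snd.comp e0)
      exact (contMDiff_fst.comp e0).prodMk ((hφ.smooth.of_le hr).comp e2)
    exact F.symm.contMDiff.comp ((Θ.contMDiff.of_le hr).comp e1)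

theorem prodD_fam {φ : V d → Y → Y} (hφ : IsAct k φ)
    (Θ : Diffeomorph ((𝓡 m).prod (𝓡 k)) (𝓡 n) (M × Y) N ∞) {r : ℕ∞} (F : DiffM n N r) :
    IsFam n N r (prodD hφ Θ F) := by
  intro y
  have hr : ((r : ℕ∞) : WithTop ℕ∞) ≤ ((⊤ : ℕ∞) : WithTop ℕ∞) := by exact_mod_cast le_top
  have e0 : ContMDiff ((𝓡 d).prod (𝓡 n)) ((𝓡 m).prod (𝓡 k)) r
      (fun p : V d × N => Θ.symm (F p.2)) :=
    (Θ.symm.contMDiff.of_le hr).comp (F.contMDiff.comp contMDiff_snd)
  have e1 : ContMDiff ((𝓡 d).prod (𝓡 n)) ((𝓡 m).prod (𝓡 k)) r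
      (fun p : V d × N => ((Θ.symm (F p.2)).1, φ p.1 (Θ.symm (F p.2)).2)) := by
    have e2 : ContMDiff ((𝓡 d).prod (𝓡 n)) ((𝓡 d).prod (𝓡 k)) r
        (fun p : V d × N => (p.1, (Θ.symm (F p.2)).2)) :=
      contMDiff_fst.prodMk (contMDiff_snd.comp e0)
    exact (contMDiff_fst.comp e0).prodMk ((hφ.smooth.of_le hr).comp e2)
  have e3 : ContMDiff ((𝓡 d).prod (𝓡 n)) (𝓡 n) r (fun p : V d × N => prodD hφ Θ F p.1 p.2) :=
    (Θ.contMDiff.of_le hr).comp e1
  exact e3.contMDiffAt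

theorem iter_act {φ : V d → Y → Y} (hφ : IsAct k φ) (h : Y → Y) (hcomm : ∀ s y, h (φ s y) = φ s (h y))
    (s : V d) (i : ℕ) (y : Y) : (fun y => φ s (h y))^[i] y = φ ((i : ℝ) • s) (h^[i] y) := by
  induction i with
  | zero => rw [Nat.cast_zero, zero_smul, hφ.zero]; rfl
  | succ i ih =>
    rw [Function.iterate_succ_apply', ih, Function.iterate_succ_apply', hcomm, ← hφ.add]
    congr 1
    push_cast
    rw [add_smul, one_smul, add_comm]

theorem isRec_fst {L : Set M} (f : L ≃ₜ L) (Θ : Diffeomorph ((𝓡 m).prod (𝓡 k)) (𝓡 n) (M × Y) N ∞)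
    {r : ℕ∞} (F : DiffM n N r) (h : Diffeomorph (𝓡 k) (𝓡 k) Y Y ∞)
    (hF : ∀ (l : L) (y' : Y), F (Θ ((l : M), y')) = Θ ((f l : M), h y'))
    (x : L) (y : Y) (hrec : IsRec F.toHomeomorph (Θ ((x : M), y))) : IsRec f x := by
  have hFit : ∀ (i : ℕ) (l : L) (y : Y), F^[i] (Θ ((l : M), y)) = Θ ((f^[i] l : L), h^[i] y) := by
    intro i
    induction i with
    | zero => intro l y; rfl
    | succ i ih =>
      intro l y
      rw [Function.iterate_succ_apply, hF, ih, Function.iterate_succ_apply,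
        Function.iterate_succ_apply]
  have hFsy : ∀ (l : L) (y : Y), F.symm (Θ ((l : M), y)) = Θ ((f.symm l : L), h.symm y) := by
    intro l y
    apply F.injective
    change F (F.symm (Θ ((l : M), y))) = F (Θ ((f.symm l : M), h.symm y))
    rw [F.apply_symm_apply, hF, f.apply_symm_apply, h.apply_symm_apply]
  have hFsit : ∀ (i : ℕ) (l : L) (y : Y),
      F.symm^[i] (Θ ((l : M), y)) = Θ ((f.symm^[i] l : L), h.symm^[i] y) := by
    intro i
    induction i with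
    | zero => intro l y; rfl
    | succ i ih =>
      intro l y
      rw [Function.iterate_succ_apply, hFsy, ih, Function.iterate_succ_apply,
        Function.iterate_succ_apply]
  apply isRec_of_returns
  intro W hW
  obtain ⟨W', hW'1, hW'2⟩ := mem_nhds_induced (Subtype.val : L → M) x W |>.1 hW
  have hc : Continuous (fun z : N => (Θ.symm z).1) := continuous_fst.comp Θ.symm.continuous
  have hU : {z : N | (Θ.symm z).1 ∈ W'} ∈ 𝓝 (Θ ((x : M), y)) := by
    apply hc.continuousAt.preimage_mem_nhds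
    rw [Θ.symm_apply_apply]
    exact hW'1
  rcases rec_cases F.toHomeomorph _ hrec with h1 | h1
  · obtain ⟨i, hi, hi2⟩ := h1 _ hU
    have hi3 : F^[i] (Θ ((x : M), y)) ∈ {z : N | (Θ.symm z).1 ∈ W'} := hi2
    rw [hFit, mem_ofPred_eq, Θ.symm_apply_apply] at hi3
    refine ⟨(i : ℤ), by exact_mod_cast (by omega : i ≠ 0), ?_⟩
    rw [zpow_natCast, pow_apply]
    exact hW'2 hi3
  · obtain ⟨i, hi, hi2⟩ := h1 _ hU
    have hi3 : F.symm^[i] (Θ ((x : M), y)) ∈ {z : N | (Θ.symm z).1 ∈ W'} := hi2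
    rw [hFsit, mem_ofPred_eq, Θ.symm_apply_apply] at hi3
    refine ⟨-(i : ℤ), by
      intro h2
      have h3 : (i : ℤ) = 0 := neg_eq_zero.1 h2
      have h4 : i = 0 := by exact_mod_cast h3
      omega, ?_⟩
    rw [zpow_neg_apply]
    exact hW'2 hi3

/-- rational vectors are dense -/
theorem exists_rat (θ : V d) (q : ℕ) (hq : 1 ≤ q) (κ : ℝ) (hκ : 0 < κ) :
    ∃ (s : V d) (p : ℕ), ‖s‖ < κ ∧ 1 ≤ p ∧ ∀ i, ∃ c : ℤ, (p : ℝ) * ((q : ℝ) * s i + θ i) = c := by
  have hq0 : (0 : ℝ) < q := by exact_mod_cast hq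
  -- a large common denominator
  obtain ⟨p, hp⟩ := exists_nat_gt ((d : ℝ) / κ + 1)
  have hd : (0 : ℝ) ≤ d := Nat.cast_nonneg d
  have hp1 : (1 : ℝ) < p := by
    have : 0 ≤ (d : ℝ) / κ := by positivity
    linarith
  have hp0 : (0 : ℝ) < p := by linarith
  refine ⟨WithLp.toLp 2 (fun i => ((⌊(p : ℝ) * θ i⌋ : ℝ) - p * θ i) / (p * q)), p, ?_,
    by exact_mod_cast hp1.le, ?_⟩
  · have h1 : ∀ i, ‖(WithLp.toLp 2 (fun i => ((⌊(p : ℝ) * θ i⌋ : ℝ) - p * θ i) / (p * q)) : V d) i‖ ≤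
        1 / p := by
      intro i
      show ‖((⌊(p : ℝ) * θ i⌋ : ℝ) - p * θ i) / (p * q)‖ ≤ 1 / p
      rw [norm_div, Real.norm_eq_abs, Real.norm_eq_abs, abs_of_pos (mul_pos hp0 hq0),
        div_le_div_iff₀ (mul_pos hp0 hq0) hp0]
      have h2 : |(⌊(p : ℝ) * θ i⌋ : ℝ) - p * θ i| ≤ 1 := by
        rw [abs_le]
        constructor
        · have := Int.sub_one_lt_floor ((p : ℝ) * θ i)
          linarith
        · have := Int.floor_le ((p : ℝ) * θ i)
          linarith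
      have h3 : (1 : ℝ) ≤ q := by exact_mod_cast hq
      calc |(⌊(p : ℝ) * θ i⌋ : ℝ) - p * θ i| * p ≤ 1 * p := by gcongr
        _ ≤ 1 * (p * q) := by nlinarith
    have h2 := EuclideanSpace.norm_eq
      (WithLp.toLp 2 (fun i => ((⌊(p : ℝ) * θ i⌋ : ℝ) - p * θ i) / (p * q)) : V d)
    rw [h2]
    have h3 : ∑ i, ‖(WithLp.toLp 2 (fun i => ((⌊(p : ℝ) * θ i⌋ : ℝ) - p * θ i) / (p * q)) : V d) i‖ ^ 2
        ≤ ∑ i : Fin d, (1 / (p : ℝ)) ^ 2 := by
      apply Finset.sum_le_sum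
      intro i _
      exact pow_le_pow_left₀ (norm_nonneg _) (h1 i) 2
    have h4 : ∑ i : Fin d, (1 / (p : ℝ)) ^ 2 = (d : ℝ) * (1 / (p : ℝ)) ^ 2 := by
      rw [Finset.sum_const, Finset.card_univ, Fintype.card_fin, nsmul_eq_mul]
    rw [h4] at h3
    have h5 : (d : ℝ) < κ * p := by
      have : (d : ℝ) / κ < p := by linarith
      rw [div_lt_iff₀ hκ] at this
      linarith
    have h6 : (d : ℝ) * (1 / p) ^ 2 < κ ^ 2 := by
      rw [div_pow, one_pow, mul_one_div, div_lt_iff₀ (by positivity)]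
      rcases Nat.eq_zero_or_pos d with hd0 | hd0
      · subst hd0
        rw [Nat.cast_zero]
        positivity
      · have hd1 : (1 : ℝ) ≤ d := by exact_mod_cast hd0
        have h7 : (d : ℝ) * d < (κ * p) * (κ * p) := by
          apply mul_lt_mul'' h5 h5 hd hd
        nlinarith
    calc Real.sqrt _ < Real.sqrt (κ ^ 2) := by
            apply Real.sqrt_lt_sqrt
            · exact Finset.sum_nonneg fun i _ => sq_nonneg _
            · exact lt_of_le_of_lt h3 h6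
      _ = κ := Real.sqrt_sq hκ.le
  · intro i
    refine ⟨⌊(p : ℝ) * θ i⌋, ?_⟩
    show (p : ℝ) * ((q : ℝ) * (((⌊(p : ℝ) * θ i⌋ : ℝ) - p * θ i) / (p * q)) + θ i) = _
    field_simp
    ring

variable [T2Space N] [CompactSpace N] [IsManifold (𝓡 n) ∞ N]

theorem compact_action (hk : 2 ≤ k) (r : ℕ∞) (hr : 1 ≤ r)
    (Θ : Diffeomorph ((𝓡 m).prod (𝓡 k)) (𝓡 n) (M × Y) N ∞) (F : DiffM n N r)
    (φ : V d → Y → Y) (hφ : IsAct k φ) (hint : ∀ s : V d, (∀ i, ∃ c : ℤ, s i = c) → ∀ y, φ s y = y)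
    (h : Diffeomorph (𝓡 k) (𝓡 k) Y Y ∞) (hcomm : ∀ s y, h (φ s y) = φ s (h y))
    (q : ℕ) (hq : 1 ≤ q) (θ : V d) (hhq : ∀ y, h^[q] y = φ θ y) (L : Set M) (f : L ≃ₜ L)
    (hF : ∀ (l : L) (y : Y), F (Θ ((l : M), y)) = Θ ((f l : M), h y)) (x : L) (y : Y)
    (hrec : IsRec F.toHomeomorph (Θ ((x : M), y))) :
    ∀ U : Set (DiffM n N r), IsOpen[strongTop n N r] U → F ∈ U →
      ∃ G ∈ U, IsPer G (Θ ((x : M), y)) := by
  have hrx := isRec_fst f Θ F h hF x y hrec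
  apply main hk r hr Θ F x y
  intro U hU hFU
  have h0 : prodD hφ Θ F 0 = F := by
    ext z
    show Θ ((Θ.symm (F z)).1, φ 0 (Θ.symm (F z)).2) = F z
    rw [hφ.zero, Prod.mk.eta, Θ.apply_symm_apply]
  obtain ⟨κ, hκ, hκ2⟩ := Pool.Agent.TH80.CLX.fam_mem r hr _ (prodD_fam hφ Θ F)
    (Θ ((x : M), y)) U hU (by rw [h0]; exact hFU)
  obtain ⟨s, p, hs, hp, hsp⟩ := exists_rat θ q hq κ hκ
  refine ⟨prodD hφ Θ F s, hκ2 s hs, L, f, actD hφ h s, x.2, hrx, ?_, ?_⟩
  · have hall : Function.periodicPts (actD hφ h s) = univ := by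
      apply eq_univ_of_forall
      intro y'
      refine ⟨q * p, Nat.mul_pos (by omega) (by omega), ?_⟩
      show (fun y => φ s (h y))^[q * p] y' = y'
      rw [iter_act hφ h hcomm]
      have h1 : ∀ c : ℕ, h^[q * c] y' = φ ((c : ℝ) • θ) y' := by
        intro c
        induction c with
        | zero => rw [Nat.cast_zero, zero_smul, hφ.zero]; rfl
        | succ c ih =>
          rw [Nat.mul_succ, add_comm, Function.iterate_add_apply, ih, hhq, ← hφ.add]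
          congr 1
          push_cast
          rw [add_smul, one_smul, add_comm]
      rw [h1, ← hφ.add]
      apply hint
      intro i
      obtain ⟨c, hc⟩ := hsp i
      refine ⟨c, ?_⟩
      rw [← hc]
      show ((q * p : ℕ) : ℝ) * s i + (p : ℝ) * θ i = _
      push_cast
      ring
    rw [hall, interior_univ, closure_univ]
    exact mem_univ _
  · intro l y'
    show Θ ((Θ.symm (F (Θ ((l : M), y')))).1, φ s (Θ.symm (F (Θ ((l : M), y')))).2) = _
    rw [hF, Θ.symm_apply_apply]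
    rfl

end

end Pool.Agent.Y271.CP
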